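import Mathlib

set_option autoImplicit false
set_option linter.unusedSectionVars false

/-!
# MP_682720_co : the least number of Schur triples in large subsets of finite abelian groups
-/

open Finset

namespace Pool.Agent.Results.MP_682720_co.LargeSets

universe u

variable {G : Type u} [AddCommGroup G] [Fintype G] [DecidableEq G]

/-- `P(G,A)`: the number of pairs `(a₁,a₂) ∈ A × A` with `a₁ + a₂ ∈ A`. -/
def schur (A : Finset G) : ℕ := ((A ×ˢ A).filter (fun p => p.1 + p.2 ∈ A)).card

/-- The values `P(G,A)` (as integers) for the subsets `A` of size `m`; `P(G,m)` is the least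
element. -/
def values (G : Type u) [AddCommGroup G] [Fintype G] [DecidableEq G] (m : ℕ) : Set ℤ :=
  {c | ∃ A : Finset G, A.card = m ∧ (schur A : ℤ) = c}

/-- number of `(x,y) ∈ X × Y` with `x + y ∈ Z` -/
def N (X Y Z : Finset G) : ℤ := ∑ x ∈ X, ∑ y ∈ Y, if x + y ∈ Z then 1 else 0

theorem schur_eq (A : Finset G) : (schur A : ℤ) = N A A A := by
  unfold schur N
  rw [card_filter, Nat.cast_sum, sum_product]
  apply sum_congr rfl
  intro x _
  apply sum_congr rfl
  intro y _
  split_ifs <;> simp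

theorem N_compl (X Y Z : Finset G) : N X Y Z + N X Y Zᶜ = (X.card : ℤ) * Y.card := by
  unfold N
  rw [← sum_add_distrib]
  have : ∀ x ∈ X, ((∑ y ∈ Y, if x + y ∈ Z then (1 : ℤ) else 0) +
      ∑ y ∈ Y, if x + y ∈ Zᶜ then (1 : ℤ) else 0) = Y.card := by
    intro x _
    rw [← sum_add_distrib]
    have h : ∀ y ∈ Y, ((if x + y ∈ Z then (1 : ℤ) else 0) + if x + y ∈ Zᶜ then (1 : ℤ) else 0)
        = 1 := by
      intro y _
      by_cases h : x + y ∈ Z <;> simp [h]
    rw [sum_congr rfl h]; simp
  rw [sum_congr rfl this]; simp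

theorem N_mid (X Y Z : Finset G) : N X Y Z + N X Yᶜ Z = (X.card : ℤ) * Z.card := by
  unfold N
  rw [← sum_add_distrib]
  have : ∀ x ∈ X, ((∑ y ∈ Y, if x + y ∈ Z then (1 : ℤ) else 0) +
      ∑ y ∈ Yᶜ, if x + y ∈ Z then (1 : ℤ) else 0) = Z.card := by
    intro x _
    rw [sum_add_sum_compl]
    have h : (∑ y : G, if x + y ∈ Z then (1 : ℤ) else 0) = ∑ z : G, if z ∈ Z then (1 : ℤ) else 0 :=
      Fintype.sum_equiv (Equiv.addLeft x) _ _ (fun _ => rfl)
    rw [h]; simp
  rw [sum_congr rfl this]; simp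

theorem N_symm (X Y Z : Finset G) : N X Y Z = N Y X Z := by
  unfold N
  rw [sum_comm]
  apply sum_congr rfl
  intro x _
  apply sum_congr rfl
  intro y _
  rw [add_comm]

/-- the complement identity -/
theorem schur_compl (A : Finset G) :
    (schur A : ℤ) = (A.card : ℤ) * ((A.card : ℤ) - (Aᶜ).card) + N Aᶜ Aᶜ A := by
  rw [schur_eq]
  have h1 := N_compl A A A
  have h2 := N_mid A A Aᶜ
  have h3 := N_symm A Aᶜ Aᶜ
  have h4 := N_mid Aᶜ A Aᶜ
  have h5 := N_compl Aᶜ Aᶜ Aᶜ
  rw [compl_compl] at h5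
  linear_combination h1 - h2 + h3 + h4 - h5

/-- The set of periods of `B`. -/
def per (B : Finset G) : AddSubgroup G where
  carrier := {g | ∀ y, y ∈ B ↔ g + y ∈ B}
  zero_mem' := by intro y; rw [zero_add]
  add_mem' := by
    intro a b ha hb y
    rw [add_assoc, ← ha (b + y)]
    exact hb y
  neg_mem' := by
    intro a ha y
    have := ha (-a + y)
    rw [add_neg_cancel_left] at this
    exact this.symm

theorem mem_per (B : Finset G) (g : G) : g ∈ per B ↔ ∀ y, y ∈ B ↔ g + y ∈ B := Iff.rfl

theorem defect_ge (B : Finset G) (hB : ¬ B.card ∣ Fintype.card G) :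
    (B.card : ℤ) - 1 ≤ N B B Bᶜ := by
  classical
  let K : Finset G := univ.filter (fun g => g ∈ per B)
  have hK : ∀ g, g ∈ K ↔ g ∈ per B := by intro g; simp [K]
  have hKcard : K.card = Nat.card (per B) := by
    rw [Nat.card_eq_fintype_card, Fintype.card_subtype]
  have hKpos : 1 ≤ K.card := card_pos.mpr ⟨0, (hK 0).mpr (zero_mem _)⟩
  have hrow : ∀ x ∈ B \ K, (K.card : ℤ) ≤ ∑ y ∈ B, if x + y ∈ Bᶜ then (1 : ℤ) else 0 := by
    intro x hx
    rw [mem_sdiff] at hx
    have hex : ∃ y ∈ B, x + y ∉ B := by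
      by_contra hcon
      push Not at hcon
      apply hx.2
      rw [hK, mem_per]
      have himg : B.image (fun y => x + y) = B := by
        apply eq_of_subset_of_card_le
        · intro z hz
          obtain ⟨y, hy, rfl⟩ := mem_image.mp hz
          exact hcon y hy
        · rw [card_image_of_injective _ (add_right_injective x)]
      intro y
      constructor
      · exact hcon y
      · intro h
        rw [← himg] at h
        obtain ⟨y', hy', he⟩ := mem_image.mp h
        have := add_left_cancel he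
        rwa [← this]
    obtain ⟨y0, hy0, hxy0⟩ := hex
    have hsub : K.image (fun k => k + y0) ⊆ B.filter (fun y => x + y ∈ Bᶜ) := by
      intro z hz
      obtain ⟨k, hk, rfl⟩ := mem_image.mp hz
      rw [hK, mem_per] at hk
      rw [mem_filter, mem_compl]
      refine ⟨(hk y0).mp hy0, ?_⟩
      intro h
      apply hxy0
      rw [hk (x + y0)]
      have : k + (x + y0) = x + (k + y0) := by abel
      rwa [this]
    have h1 := card_le_card hsub
    rw [card_image_of_injective _ (add_left_injective y0)] at h1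
    rw [← sum_filter, sum_const]
    simp only [nsmul_eq_mul, mul_one]
    exact_mod_cast h1
  have hsum : ((B \ K).card : ℤ) * K.card ≤ N B B Bᶜ := by
    unfold N
    have h1 : ∑ x ∈ B \ K, (∑ y ∈ B, if x + y ∈ Bᶜ then (1 : ℤ) else 0) ≤
        ∑ x ∈ B, (∑ y ∈ B, if x + y ∈ Bᶜ then (1 : ℤ) else 0) := by
      apply sum_le_sum_of_subset_of_nonneg sdiff_subset
      intro x _ _
      apply sum_nonneg
      intro y _
      split_ifs <;> norm_num
    have h2 := sum_le_sum hrow
    rw [sum_const] at h2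
    simp only [nsmul_eq_mul] at h2
    exact h2.trans h1
  by_cases hint : (B ∩ K).Nonempty
  · obtain ⟨g, hg⟩ := hint
    rw [mem_inter, hK] at hg
    have hKB : K ⊆ B := by
      intro k hk
      rw [hK] at hk
      have h1 : k - g ∈ per B := sub_mem hk hg.2
      have h2 := ((mem_per B _).mp h1 g).mp hg.1
      rwa [sub_add_cancel] at h2
    have hne : K.card ≠ B.card := by
      intro h
      apply hB
      rw [← h, hKcard, ← Nat.card_eq_fintype_card]
      exact AddSubgroup.card_addSubgroup_dvd_card _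
    have hle := card_le_card hKB
    have hc : ((B \ K).card : ℤ) = B.card - K.card := by
      rw [card_sdiff_of_subset hKB]
      push_cast [Nat.cast_sub hle]; ring
    rw [hc] at hsum
    have h1 : (1 : ℤ) ≤ K.card := by exact_mod_cast hKpos
    have h2 : (K.card : ℤ) + 1 ≤ B.card := by
      have : K.card < B.card := lt_of_le_of_ne hle hne
      exact_mod_cast this
    nlinarith [mul_nonneg (sub_nonneg.mpr h1) (sub_nonneg.mpr h2)]
  · rw [not_nonempty_iff_eq_empty] at hint
    have hBK : B \ K = B := by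
      apply sdiff_eq_self_of_disjoint
      rwa [disjoint_iff_inter_eq_empty]
    rw [hBK] at hsum
    have h1 : (1 : ℤ) ≤ K.card := by exact_mod_cast hKpos
    have h2 : (0 : ℤ) ≤ B.card := by positivity
    nlinarith [mul_nonneg h2 (sub_nonneg.mpr h1)]

/-- a finite abelian group has subgroups of all orders dividing its order -/
theorem exists_sub (d : ℕ) : ∀ (G : Type u) [AddCommGroup G] [Finite G], d ∣ Nat.card G →
    ∃ H : AddSubgroup G, Nat.card H = d := by
  induction d using Nat.strong_induction_on with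
  | _ d ih =>
    intro G _ _ hd
    rcases Nat.lt_or_ge 1 d with h1 | h1
    · obtain ⟨p, hp, d', rfl⟩ := Nat.exists_prime_and_dvd (by omega : d ≠ 1)
      have : Fact p.Prime := ⟨hp⟩
      have hpG : p ∣ Nat.card G := (Nat.dvd_mul_right p d').trans hd
      obtain ⟨g, hg⟩ := exists_prime_addOrderOf_dvd_card' p hpG
      have hZ : Nat.card (AddSubgroup.zmultiples g) = p := by
        rw [Nat.card_zmultiples, hg]
      have hq := AddSubgroup.card_eq_card_quotient_mul_card_addSubgroup (AddSubgroup.zmultiples g)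
      rw [hZ] at hq
      have hd'q : d' ∣ Nat.card (G ⧸ AddSubgroup.zmultiples g) := by
        rw [hq, mul_comm _ p] at hd
        exact Nat.dvd_of_mul_dvd_mul_left hp.pos hd
      have hd'0 : 0 < d' := by
        rcases Nat.eq_zero_or_pos d' with h | h
        · rw [h] at h1; omega
        · exact h
      have hlt : d' < p * d' := by
        have := hp.two_le
        nlinarith
      obtain ⟨H', hH'⟩ := ih d' hlt (G ⧸ AddSubgroup.zmultiples g) hd'q
      refine ⟨H'.comap (QuotientAddGroup.mk' (AddSubgroup.zmultiples g)), ?_⟩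
      have hidx := AddSubgroup.index_comap_of_surjective H'
        (QuotientAddGroup.mk'_surjective (AddSubgroup.zmultiples g))
      have c1 := AddSubgroup.card_mul_index
        (H'.comap (QuotientAddGroup.mk' (AddSubgroup.zmultiples g)))
      have c2 := AddSubgroup.card_mul_index H'
      have hi : 0 < H'.index := Nat.pos_of_ne_zero AddSubgroup.index_ne_zero_of_finite
      rw [hidx, hq, ← c2, hH'] at c1
      have c3 : Nat.card (H'.comap (QuotientAddGroup.mk' (AddSubgroup.zmultiples g))) * H'.index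
          = (p * d') * H'.index := by rw [c1]; ring
      exact Nat.eq_of_mul_eq_mul_right hi c3
    · rcases Nat.lt_or_ge d 1 with h0 | h0
      · have : d = 0 := by omega
        subst this
        have := Nat.eq_zero_of_zero_dvd hd
        have hpos : 0 < Nat.card G := Nat.card_pos
        omega
      · have : d = 1 := by omega
        subst this
        exact ⟨⊥, AddSubgroup.card_bot⟩

/-- the defect of `B` -/
theorem defect_nonneg (B C : Finset G) : 0 ≤ N B B C := by
  unfold N
  apply sum_nonneg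
  intro x _
  apply sum_nonneg
  intro y _
  split_ifs <;> norm_num

theorem sub_finset (H : AddSubgroup G) : ∃ B : Finset G, B.card = Nat.card H ∧
    ∀ g, g ∈ B ↔ g ∈ H := by
  classical
  refine ⟨univ.filter (fun g => g ∈ H), ?_, by intro g; simp⟩
  rw [Nat.card_eq_fintype_card, Fintype.card_subtype]

theorem defect_sub (b : ℕ) (hb : b ∣ Fintype.card G) :
    ∃ B : Finset G, B.card = b ∧ N B B Bᶜ = 0 := by
  obtain ⟨H, hH⟩ := exists_sub b G (by rwa [Nat.card_eq_fintype_card])
  obtain ⟨B, hB, hBH⟩ := sub_finset H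
  refine ⟨B, by rw [hB, hH], ?_⟩
  unfold N
  apply sum_eq_zero
  intro x hx
  apply sum_eq_zero
  intro y hy
  rw [if_neg]
  rw [mem_compl, not_not, hBH]
  exact add_mem ((hBH x).mp hx) ((hBH y).mp hy)

theorem defect_succ (b : ℕ) (hb1 : 1 ≤ b) (hb : b + 1 ∣ Fintype.card G) :
    ∃ B : Finset G, B.card = b ∧ N B B Bᶜ = (b : ℤ) - 1 := by
  obtain ⟨H, hH⟩ := exists_sub (b + 1) G (by rwa [Nat.card_eq_fintype_card])
  obtain ⟨C, hC, hCH⟩ := sub_finset H
  rw [hH] at hC
  obtain ⟨y, hy, hy0⟩ : ∃ y ∈ C, y ≠ 0 := by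
    by_contra hcon
    push Not at hcon
    have : C ⊆ {0} := fun z hz => mem_singleton.mpr (hcon z hz)
    have := card_le_card this
    rw [hC, card_singleton] at this
    omega
  have hBc : (C.erase y).card = b := by rw [card_erase_of_mem hy, hC]; rfl
  refine ⟨C.erase y, hBc, ?_⟩
  have hinner : ∀ x ∈ C.erase y, (∑ z ∈ C.erase y, if x + z ∈ (C.erase y)ᶜ then (1 : ℤ) else 0) =
      if x = 0 then 0 else 1 := by
    intro x hx
    rw [mem_erase, hCH] at hx
    have h1 : ∀ z ∈ C.erase y, (if x + z ∈ (C.erase y)ᶜ then (1 : ℤ) else 0) =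
        if z = y - x then 1 else 0 := by
      intro z hz
      rw [mem_erase, hCH] at hz
      have hxz : x + z ∈ C := (hCH _).mpr (add_mem hx.2 hz.2)
      by_cases h : z = y - x
      · rw [if_pos h, if_pos]
        rw [mem_compl, mem_erase, h]
        intro hc
        exact hc.1 (by abel)
      · rw [if_neg h, if_neg]
        rw [mem_compl, not_not, mem_erase]
        refine ⟨fun he => h ?_, hxz⟩
        rw [← he]; abel
    rw [sum_congr rfl h1, sum_ite_eq']
    by_cases hx0 : x = 0
    · rw [if_pos hx0, if_neg]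
      rw [hx0, sub_zero, mem_erase]
      exact fun h => h.1 rfl
    · rw [if_neg hx0, if_pos]
      rw [mem_erase, hCH]
      refine ⟨fun h => hx0 ?_, sub_mem ((hCH y).mp hy) hx.2⟩
      have : y - x = y := h
      exact sub_eq_self.mp this
  unfold N
  rw [sum_congr rfl hinner]
  have h0 : (0 : G) ∈ C.erase y := mem_erase.mpr ⟨hy0.symm, (hCH 0).mpr (zero_mem H)⟩
  rw [← add_sum_erase _ _ h0, if_pos rfl]
  have : ∀ x ∈ (C.erase y).erase 0, (if x = 0 then (0 : ℤ) else 1) = 1 := by
    intro x hx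
    rw [if_neg (mem_erase.mp hx).1]
  rw [sum_congr rfl this, sum_const, card_erase_of_mem h0, hBc]
  simp only [nsmul_eq_mul, mul_one, zero_add]
  push_cast [Nat.cast_sub hb1]
  ring

theorem ordne (k : ℕ) (hk : k.Prime) (x : G) (hx : x ≠ 0) (hn : ¬ k ∣ Fintype.card G) :
    k • x ≠ 0 := by
  intro h
  have h1 := addOrderOf_dvd_of_nsmul_eq_zero h
  rcases (Nat.dvd_prime hk).mp h1 with h2 | h2
  · exact hx (AddMonoid.addOrderOf_eq_one_iff.mp h2)
  · exact hn (h2 ▸ addOrderOf_dvd_card)

theorem defect_two (hn : ¬ 2 ∣ Fintype.card G) (h2 : 2 < Fintype.card G) :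
    ∃ B : Finset G, B.card = 2 ∧ N B B Bᶜ ≤ (2 : ℤ) - 1 := by
  obtain ⟨x, hx⟩ : ∃ x : G, x ≠ 0 := by
    have : Nontrivial G := Fintype.one_lt_card_iff_nontrivial.mp (by omega)
    exact exists_ne 0
  have hxx := ordne 2 Nat.prime_two x hx hn
  rw [two_nsmul] at hxx
  refine ⟨{0, x}, card_pair hx.symm, ?_⟩
  unfold N
  rw [sum_pair hx.symm, sum_pair hx.symm, sum_pair hx.symm]
  simp [hx, hxx]

theorem defect_three (hn : ¬ 3 ∣ Fintype.card G) (h3 : 3 < Fintype.card G) :
    ∃ B : Finset G, B.card = 3 ∧ N B B Bᶜ ≤ (3 : ℤ) - 1 := by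
  by_cases h : ∃ x : G, x + x ≠ 0
  · obtain ⟨x, hxx⟩ := h
    have hx : x ≠ 0 := by rintro rfl; simp at hxx
    have h3x := ordne 3 Nat.prime_three x hx hn
    have h3x' : x + x + x ≠ 0 := by
      intro h; apply h3x; rw [show (3 : ℕ) = 2 + 1 by rfl, add_nsmul, two_nsmul, one_nsmul]; exact h
    have hnx : -x ≠ x := by
      intro h; apply hxx; nth_rewrite 1 [← h]; simp
    have hnx0 : -x ≠ 0 := neg_ne_zero.mpr hx
    have hc : ({-x, 0, x} : Finset G).card = 3 := by
      rw [card_eq_three]; exact ⟨-x, 0, x, hnx0, hnx, hx.symm, rfl⟩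
    refine ⟨{-x, 0, x}, hc, ?_⟩
    have hs : ∀ f : G → ℤ, ∑ z ∈ ({-x, 0, x} : Finset G), f z = f (-x) + (f 0 + f x) := by
      intro f
      rw [sum_insert (by simp [hnx0, hnx]), sum_pair hx.symm]
    unfold N
    rw [hs]
    rw [hs, hs, hs]
    have a1 : ∀ y : G, y ∈ ({-x, 0, x} : Finset G) →
        (if y ∈ ({-x, 0, x} : Finset G)ᶜ then (1 : ℤ) else 0) = 0 := by
      intro y hy; rw [if_neg]; rw [mem_compl, not_not]; exact hy
    have a2 : ∀ P : Prop, ∀ [Decidable P], (if P then (1 : ℤ) else 0) ≤ 1 := by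
      intro P _; split_ifs <;> norm_num
    rw [a1 (-x + 0) (by simp), a1 (-x + x) (by simp), a1 (0 + -x) (by simp),
      a1 (0 + 0) (by simp), a1 (0 + x) (by simp), a1 (x + -x) (by simp), a1 (x + 0) (by simp)]
    have b1 := a2 (-x + -x ∈ ({-x, 0, x} : Finset G)ᶜ)
    have b2 := a2 (x + x ∈ ({-x, 0, x} : Finset G)ᶜ)
    linarith
  · push Not at h
    obtain ⟨x, hx⟩ : ∃ x : G, x ≠ 0 := by
      have : Nontrivial G := Fintype.one_lt_card_iff_nontrivial.mp (by omega)
      exact exists_ne 0
    obtain ⟨y, hy⟩ : ∃ y : G, y ∉ ({0, x} : Finset G) := by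
      by_contra hcon
      push Not at hcon
      have : (univ : Finset G) ⊆ {0, x} := fun z _ => hcon z
      have := card_le_card this
      rw [card_univ, card_pair hx.symm] at this
      omega
    rw [mem_insert, mem_singleton, not_or] at hy
    have hc : ({0, x, y} : Finset G).card = 3 := by
      rw [card_eq_three]; exact ⟨0, x, y, hx.symm, (fun h => hy.1 h.symm), (fun h => hy.2 h.symm), rfl⟩
    refine ⟨{0, x, y}, hc, ?_⟩
    have hs : ∀ f : G → ℤ, ∑ z ∈ ({0, x, y} : Finset G), f z = f 0 + (f x + f y) := by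
      intro f
      rw [sum_insert (by simp only [mem_insert, mem_singleton, not_or]; exact ⟨hx.symm, fun h => hy.1 h.symm⟩),
        sum_pair (fun h => hy.2 h.symm)]
    unfold N
    rw [hs]
    rw [hs, hs, hs]
    have a1 : ∀ z : G, z ∈ ({0, x, y} : Finset G) →
        (if z ∈ ({0, x, y} : Finset G)ᶜ then (1 : ℤ) else 0) = 0 := by
      intro z hz; rw [if_neg]; rw [mem_compl, not_not]; exact hz
    have a2 : ∀ P : Prop, ∀ [Decidable P], (if P then (1 : ℤ) else 0) ≤ 1 := by
      intro P _; split_ifs <;> norm_num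
    rw [a1 (0 + 0) (by simp), a1 (0 + x) (by simp), a1 (0 + y) (by simp),
      a1 (x + 0) (by simp), a1 (x + x) (by simp [h x]), a1 (y + 0) (by simp),
      a1 (y + y) (by simp [h y])]
    have b1 := a2 (x + y ∈ ({0, x, y} : Finset G)ᶜ)
    have b2 := a2 (y + x ∈ ({0, x, y} : Finset G)ᶜ)
    linarith

/-- **`P(G,m)` for large `m`.** -/
theorem result (G : Type u) [AddCommGroup G] [Fintype G] [DecidableEq G] (n m : ℕ)
    (hn : n = Fintype.card G) (hm : m < n) :
    (n - m ∣ n → IsLeast (values G m) ((m : ℤ) * (2 * m - n))) ∧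
    (¬ n - m ∣ n → ∀ c ∈ values G m, (m : ℤ) * (2 * m - n) + (n - m) - 1 ≤ c) ∧
    (¬ n - m ∣ n → (n - m + 1 ∣ n ∨ n - m ≤ 3) →
      IsLeast (values G m) ((m : ℤ) * (2 * m - n) + (n - m) - 1)) := by
  have hAc : ∀ A : Finset G, A.card = m → (Aᶜ).card = n - m := by
    intro A hA; rw [card_compl, hA, hn]
  have hcast : ((n - m : ℕ) : ℤ) = (n : ℤ) - m := by push_cast [Nat.cast_sub hm.le]; ring
  have hform : ∀ A : Finset G, A.card = m →
      (schur A : ℤ) = (m : ℤ) * (2 * m - n) + N Aᶜ Aᶜ A := by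
    intro A hA
    rw [schur_compl, hAc A hA, hA, hcast]; ring
  have hlow : ¬ n - m ∣ n → ∀ c ∈ values G m, (m : ℤ) * (2 * m - n) + (n - m) - 1 ≤ c := by
    rintro hnd c ⟨A, hA, rfl⟩
    rw [hform A hA]
    have h := defect_ge Aᶜ (by rw [hAc A hA, ← hn]; exact hnd)
    rw [compl_compl, hAc A hA, hcast] at h
    linarith
  have hbuild : ∀ (B : Finset G), B.card = n - m →
      ∃ A : Finset G, A.card = m ∧ (schur A : ℤ) = (m : ℤ) * (2 * m - n) + N B B Bᶜ := by
    intro B hB
    have hBc : (Bᶜ).card = m := by rw [card_compl, hB, ← hn]; omega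
    refine ⟨Bᶜ, hBc, ?_⟩
    have := hform Bᶜ hBc
    rwa [compl_compl] at this
  refine ⟨?_, hlow, ?_⟩
  · intro hd
    constructor
    · obtain ⟨B, hB, hN⟩ := defect_sub (G := G) (n - m) (by rw [← hn]; exact hd)
      obtain ⟨A, hA, hs⟩ := hbuild B hB
      exact ⟨A, hA, by rw [hs, hN, add_zero]⟩
    · rintro c ⟨A, hA, rfl⟩
      rw [hform A hA]
      have := defect_nonneg Aᶜ A
      linarith
  · intro hnd hor
    refine ⟨?_, hlow hnd⟩
    have hfin : ∀ B : Finset G, B.card = n - m → N B B Bᶜ ≤ ((n - m : ℕ) : ℤ) - 1 →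
        (m : ℤ) * (2 * m - n) + (n - m) - 1 ∈ values G m := by
      intro B hB hN
      obtain ⟨A, hA, hs⟩ := hbuild B hB
      have h1 := hlow hnd _ ⟨A, hA, rfl⟩
      refine ⟨A, hA, le_antisymm ?_ h1⟩
      rw [hs]
      rw [hcast] at hN
      linarith
    have hpos : 1 ≤ n - m := by omega
    rcases hor with h | h
    · obtain ⟨B, hB, hN⟩ := defect_succ (G := G) (n - m) hpos (by rw [← hn]; exact h)
      exact hfin B hB hN.le
    · have h1 : n - m ≠ 1 := by
        intro h1; apply hnd; rw [h1]; exact one_dvd n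
      rcases (by omega : n - m = 2 ∨ n - m = 3) with h2 | h3
      · rw [h2] at hnd
        have hnn : ¬ 2 ∣ Fintype.card G := by rw [← hn]; exact hnd
        have h2n : 2 < Fintype.card G := by
          rw [← hn]
          rcases Nat.lt_or_ge 2 n with h | h
          · exact h
          · exfalso; apply hnd; have : n = 2 := by omega
            rw [this]
        obtain ⟨B, hB, hN⟩ := defect_two hnn h2n
        exact hfin B (by rw [hB, h2]) (by rw [h2]; exact_mod_cast hN)
      · rw [h3] at hnd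
        have hnn : ¬ 3 ∣ Fintype.card G := by rw [← hn]; exact hnd
        have h3n : 3 < Fintype.card G := by
          rw [← hn]
          rcases Nat.lt_or_ge 3 n with h | h
          · exact h
          · exfalso; apply hnd; have : n = 3 := by omega
            rw [this]
        obtain ⟨B, hB, hN⟩ := defect_three hnn h3n
        exact hfin B (by rw [hB, h3]) (by rw [h3]; exact_mod_cast hN)

end Pool.Agent.Results.MP_682720_co.LargeSets
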